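import Pool.Agent.Helper92.TN.StN

/-!
# Project T3K, module QFaT: the system `F_D`
-/

set_option autoImplicit false

namespace Pool.Agent.Helper66.TN

open Pool.Agent.Helper14.CV (G0 Homog EqC act StFar ne_zero_of_det)
open Pool.Agent.Helper28.WK
open Pool.Agent.Helper14.WK
open Pool.Agent.Helper28.LV
open Pool.Agent.Helper76.TG
open Pool.Agent.Helper28.TK
open Pool.Agent.Helper76.TX (Sg)
open Pool.Agent.Helper92.TN

private theorem u_ne {p : ℕ} (hp : (p : ℤ) ≠ 0) {x y : ℤ} (h : x ≠ 0 ∨ y ≠ 0) :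
    x ≠ 0 ∨ (p : ℤ) * y ≠ 0 := by
  rcases h with h | h
  · exact Or.inl h
  · exact Or.inr (mul_ne_zero hp h)

private theorem u_ne' {p : ℕ} (hp : (p : ℤ) ≠ 0) {x y : ℤ} (h : x ≠ 0 ∨ y ≠ 0) :
    (p : ℤ) * x ≠ 0 ∨ y ≠ 0 := by
  rcases h with h | h
  · exact Or.inl (mul_ne_zero hp h)
  · exact Or.inr h

private theorem k_ne {k : ℤ} (hk : k ≠ 0) {x y : ℤ} (h : x ≠ 0 ∨ y ≠ 0) :
    k * x ≠ 0 ∨ k * y ≠ 0 := by
  rcases h with h | h
  · exact Or.inl (mul_ne_zero hk h)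
  · exact Or.inr (mul_ne_zero hk h)

/-- Step (0). -/
private theorem nc_all {p : ℕ} [Fact p.Prime] (hp : (p : ℤ) ≠ 0) (a : ℕ) (ψ : ℤ → ℤ → ℤ_[p])
    (hψ : Homog ψ)
    (hNc : ∀ c : ℤ, (p : ℤ) ∣ c → EqC (Nc a c (act p 0 0 1 ψ)) 0) (c : ℤ) : EqC (Nc a c ψ) 0 := by
  obtain ⟨k, hk⟩ := hNc (p * c) (dvd_mul_right _ _)
  refine ⟨k, fun x y hxy => ?_⟩
  have h1 : Nc a (p * c) (act p 0 0 1 ψ) x (p * y) = 0 + k := hk x (p * y) (u_ne hp hxy)
  change Nc a c ψ x y = 0 + k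
  rw [← h1]
  simp only [Nc, act]
  refine Finset.sum_congr rfl fun j _ => ?_
  congr 1
  have h2 : x ≠ 0 ∨ (j : ℤ) * c * x + y ≠ 0 := by
    by_cases hx : x = 0
    · right
      rw [hx, mul_zero, zero_add]
      rcases hxy with h | h
      · exact absurd hx h
      · exact h
    · exact Or.inl hx
  rw [← hψ p x ((j : ℤ) * c * x + y) hp h2]
  congr 1 <;> ring

theorem hQFaT : StQFaT := by
  intro hMS hT hU hE p hpf a c Φ ψ heqv hψ hsym hu hNb hNc
  have hp0 : (p : ℤ) ≠ 0 := by exact_mod_cast hpf.out.ne_zero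
  have hpQ : (p : ℚ_[p]) ≠ 0 := by exact_mod_cast hpf.out.ne_zero
  have hNc' := nc_all hp0 a ψ hψ hNc
  obtain ⟨k', hk'⟩ := hu
  have hsym' : ∀ M : ℕ, 3 ≤ M → SymP p M (M + 1) (redP M ψ) := by
    intro M hM
    obtain ⟨g1, g2⟩ := hsym M hM
    refine ⟨g1, fun α β γ δ hd hb hc => g2 α β γ δ hd hb (dvd_trans ?_ hc)⟩
    exact pow_dvd_pow _ (Nat.le_succ M)
  obtain ⟨F, hF⟩ := hMS p hpf a ψ hψ hsym' hNb hNc'
  obtain ⟨E1, E2, E3, E4⟩ := hE p hpf a Φ
  refine ⟨F, ?_⟩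
  unfold FSysT
  refine ⟨fun v1 v2 w1 w2 hv hw => (hF v1 v2 w1 w2 hv hw).1, ?_, ?_, ?_, ?_⟩
  -- additivity
  · intro v1 v2 w1 w2 z1 z2 hv hw hz
    obtain ⟨r1, r2⟩ := hF v1 v2 w1 w2 hv hw
    obtain ⟨s1, s2⟩ := hF w1 w2 z1 z2 hw hz
    obtain ⟨t1, t2⟩ := hF v1 v2 z1 z2 hv hz
    obtain ⟨_, _, _, l1, _⟩ := hT p hpf a _ r1
    have A1 := l1 _ 1 1 s1
    obtain ⟨_, _, _, l2, _⟩ := hT p hpf a _ A1
    have A2 := l2 _ 1 (-1) t1
    have hz := hU p hpf a 0 _ A2 (by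
      intro α β γ δ hd _ _ _ _
      have q1 := r2 α β γ δ hd
      have q2 := s2 α β γ δ hd
      have q3 := t2 α β γ δ hd
      rw [PadicInt.coe_sub] at q1 q2 q3
      linear_combination q3 - q1 - q2)
    intro α β γ δ
    have := hz α β γ δ
    linear_combination this
  -- homogeneity
  · intro v1 v2 w1 w2 k hv hw hk
    obtain ⟨r1, r2⟩ := hF v1 v2 w1 w2 hv hw
    obtain ⟨s1, s2⟩ := hF v1 v2 (k * w1) (k * w2) hv (k_ne hk hw)
    obtain ⟨_, _, _, l1, _⟩ := hT p hpf a _ s1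
    have A1 := l1 _ 1 (-1) r1
    have hz := hU p hpf a 0 _ A1 (by
      intro α β γ δ hd _ _ _ _
      have hgw := ne_zero_of_det (by rw [hd]; exact one_ne_zero : α * δ - β * γ ≠ 0) hw
      have q1 := r2 α β γ δ hd
      have q2 := s2 α β γ δ hd
      have q3 := hψ k _ _ hk hgw
      have e1 : α * (k * w1) + β * (k * w2) = k * (α * w1 + β * w2) := by ring
      have e2 : γ * (k * w1) + δ * (k * w2) = k * (γ * w1 + δ * w2) := by ring
      rw [e1, e2, q3] at q2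
      linear_combination q1 - q2)
    intro α β γ δ
    have := hz α β γ δ
    linear_combination this
  -- equivariance
  · intro v1 v2 w1 w2 hv hw x y z t hdet
    have hne : x * t - y * z ≠ 0 := by rw [hdet]; exact one_ne_zero
    obtain ⟨r1, r2⟩ := hF v1 v2 w1 w2 hv hw
    obtain ⟨s1, s2⟩ := hF (x * v1 + y * v2) (z * v1 + t * v2) (x * w1 + y * w2) (z * w1 + t * w2)
      (ne_zero_of_det hne hv) (ne_zero_of_det hne hw)
    obtain ⟨c1, _, _, _, _⟩ := hT p hpf a _ r1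
    have c1' := c1 (x : ℚ_[p]) (y : ℚ_[p]) (z : ℚ_[p]) (t : ℚ_[p])
    obtain ⟨_, _, _, l1, _⟩ := hT p hpf a _ s1
    have A1 := l1 _ 1 (-1) c1'
    have hz := hU p hpf a 0 _ A1 (by
      intro α β γ δ hd _ _ _ _
      have q1 := r2 (α * x + β * z) (α * y + β * t) (γ * x + δ * z) (γ * y + δ * t)
        (by linear_combination (x * t - y * z) * hd + hdet)
      have q2 := s2 α β γ δ hd
      have e1 : α * (x * w1 + y * w2) + β * (z * w1 + t * w2) =
          (α * x + β * z) * w1 + (α * y + β * t) * w2 := by ring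
      have e2 : γ * (x * w1 + y * w2) + δ * (z * w1 + t * w2) =
          (γ * x + δ * z) * w1 + (γ * y + δ * t) * w2 := by ring
      have e3 : α * (x * v1 + y * v2) + β * (z * v1 + t * v2) =
          (α * x + β * z) * v1 + (α * y + β * t) * v2 := by ring
      have e4 : γ * (x * v1 + y * v2) + δ * (z * v1 + t * v2) =
          (γ * x + δ * z) * v1 + (γ * y + δ * t) * v2 := by ring
      rw [e1, e2, e3, e4, q1] at q2
      have c2 : (((α * x + β * z : ℤ)) : ℚ_[p]) = (α : ℚ_[p]) * x + β * z := by push_cast; ring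
      have c3 : (((α * y + β * t : ℤ)) : ℚ_[p]) = (α : ℚ_[p]) * y + β * t := by push_cast; ring
      have c4 : (((γ * x + δ * z : ℤ)) : ℚ_[p]) = (γ : ℚ_[p]) * x + δ * z := by push_cast; ring
      have c5 : (((γ * y + δ * t : ℤ)) : ℚ_[p]) = (γ : ℚ_[p]) * y + δ * t := by push_cast; ring
      rw [c2, c3, c4, c5] at q2
      linear_combination -q2)
    intro α β γ δ
    have := hz α β γ δ
    linear_combination this
  -- the relation with the symbol
  · intro v1 v2 w1 w2 hv hw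
    obtain ⟨r1, r2⟩ := hF v1 v2 w1 w2 hv hw
    obtain ⟨s1, s2⟩ := hF (p * v1) v2 (p * w1) w2 (u_ne' hp0 hv) (u_ne' hp0 hw)
    obtain ⟨_, t2, _, _, _⟩ := hT p hpf a _ s1
    have t2' := t2 (p : ℚ_[p]) ((p : ℚ_[p])⁻¹)
    obtain ⟨_, _, _, t4, _⟩ := hT p hpf a _ t2'
    have t4' := t4 _ (c : ℚ_[p]) (-1) r1
    obtain ⟨_, _, _, t5, _⟩ := hT p hpf a _ (E1 v1 v2 w1 w2)
    have hR := t5 _ 4 (-1) t4'
    have hz := hU p hpf a 1 _ hR (by
      intro α β γ δ hd _ _ hc _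
      rw [pow_one] at hc
      obtain ⟨γ', hγ⟩ := hc
      have hgw := ne_zero_of_det (by rw [hd]; exact one_ne_zero : α * δ - β * γ ≠ 0) hw
      have hgv := ne_zero_of_det (by rw [hd]; exact one_ne_zero : α * δ - β * γ ≠ 0) hv
      have q1 := r2 α β γ δ hd
      have q2 := s2 α (p * β) γ' δ (by rw [← hd, hγ]; ring)
      have q3 := hk' _ _ hgw
      have q4 := hk' _ _ hgv
      have q5 := E4 v1 v2 w1 w2 α β γ δ hv hw (heqv α β γ δ hd ⟨γ', hγ⟩)
      simp only [Pi.sub_apply, Pi.smul_apply, act, cp] at q3 q4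
      simp only [zsmul_eq_mul] at q3 q4
      have m1 : ψ (α * (p * w1) + p * β * w2) (γ' * (p * w1) + δ * w2) =
          ψ (p * (α * w1 + β * w2) + 0 * (γ * w1 + δ * w2))
            (0 * (α * w1 + β * w2) + 1 * (γ * w1 + δ * w2)) := by
        rw [hγ]
        congr 1 <;> ring
      have m2 : ψ (α * (p * v1) + p * β * v2) (γ' * (p * v1) + δ * v2) =
          ψ (p * (α * v1 + β * v2) + 0 * (γ * v1 + δ * v2))
            (0 * (α * v1 + β * v2) + 1 * (γ * v1 + δ * v2)) := by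
        rw [hγ]
        congr 1 <;> ring
      have hγ2 : (p : ℚ_[p])⁻¹ * ((γ : ℤ) : ℚ_[p]) = ((γ' : ℤ) : ℚ_[p]) := by
        rw [hγ]
        push_cast
        rw [← mul_assoc, inv_mul_cancel₀ hpQ, one_mul]
      have m3 : (c : ℤ_[p]) * (ψ (α * (p * w1) + p * β * w2) (γ' * (p * w1) + δ * w2) -
          ψ (α * (p * v1) + p * β * v2) (γ' * (p * v1) + δ * v2)) -
          (ψ (α * w1 + β * w2) (γ * w1 + δ * w2) - ψ (α * v1 + β * v2) (γ * v1 + δ * v2)) =
          4 * (Φ (α * w1 + β * w2) (γ * w1 + δ * w2) a -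
            Φ (α * v1 + β * v2) (γ * v1 + δ * v2) a) := by
        rw [m1, m2]
        push_cast at q3 q4
        linear_combination q3 - q4
      have m4 := congrArg (fun z : ℤ_[p] => (z : ℚ_[p])) m3
      rw [PadicInt.coe_sub, PadicInt.coe_mul, q2, q1, PadicInt.coe_mul, q5, PadicInt.coe_intCast] at m4
      have h4 : ((4 : ℤ_[p]) : ℚ_[p]) = 4 := map_ofNat (PadicInt.Coe.ringHom (p := p)) 4
      rw [hγ2]
      push_cast at m4 ⊢
      rw [h4] at m4
      linear_combination -m4)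
    intro α β γ δ
    have := hz α β γ δ
    rw [div_eq_inv_mul]
    linear_combination this

end Pool.Agent.Helper66.TN
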